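import Pool.Agent.Helper53.CE.VolOm

/-!
The bounded volume cocycle on the Riemann sphere `P^1(C)`: interface.

`V a b c d` (for `a b c d : OnePoint ℂ`) is invariant under `GL (Fin 2) ℂ` (Mathlib's action),
alternating, a cocycle on all 5-tuples, bounded, and positive on the regular ideal simplex
`(∞, 0, 1, om)`, `om = exp (i π / 3)`.
-/

namespace Pool.Helper53.CE

open MeasureTheory Set OnePoint

noncomputable section

/-- the bounded volume cocycle -/
def V (a b c d : OnePoint ℂ) : ℝ := - V0 a b c d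

theorem V_cocycle (a b c d e : OnePoint ℂ) :
    V b c d e - V a c d e + V a b d e - V a b c e + V a b c d = 0 := by
  have := V0_cocycle a b c d e
  unfold V; linarith

theorem V_swap12 (a b c d : OnePoint ℂ) : V b a c d = - V a b c d := by
  unfold V; rw [V0_swap12]

theorem V_swap23 (a b c d : OnePoint ℂ) : V a c b d = - V a b c d := by
  unfold V; rw [V0_swap23]

theorem V_swap34 (a b c d : OnePoint ℂ) : V a b d c = - V a b c d := by
  unfold V; rw [V0_swap34]

theorem V_12 (a c d : OnePoint ℂ) : V a a c d = 0 := by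
  have := V_swap12 a a c d; linarith

theorem V_23 (a b d : OnePoint ℂ) : V a b b d = 0 := by
  have := V_swap23 a b b d; linarith

theorem V_34 (a b c : OnePoint ℂ) : V a b c c = 0 := by
  have := V_swap34 a b c c; linarith

theorem V_13 (a b d : OnePoint ℂ) : V a b a d = 0 := by
  rw [V_swap23 a a b d, V_12, neg_zero]

theorem V_24 (a b c : OnePoint ℂ) : V a b c b = 0 := by
  rw [V_swap34 a b b c, V_23, neg_zero]

theorem V_14 (a b c : OnePoint ℂ) : V a b c a = 0 := by
  rw [V_swap34 a b a c, V_13, neg_zero]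

/-- `V` vanishes when two of the four points coincide -/
theorem V_eq_zero {a b c d : OnePoint ℂ}
    (h : a = b ∨ a = c ∨ a = d ∨ b = c ∨ b = d ∨ c = d) : V a b c d = 0 := by
  rcases h with rfl | rfl | rfl | rfl | rfl | rfl
  · exact V_12 _ _ _
  · exact V_13 _ _ _
  · exact V_14 _ _ _
  · exact V_23 _ _ _
  · exact V_24 _ _ _
  · exact V_34 _ _ _

theorem V_aff {A : ℂ} (B : ℂ) (hA : A ≠ 0) (a b c d : OnePoint ℂ) :
    V (aff A B a) (aff A B b) (aff A B c) (aff A B d) = V a b c d := by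
  unfold V; rw [V0_aff B hA]

theorem V_io (a b c d : OnePoint ℂ) : V (io a) (io b) (io c) (io d) = V a b c d := by
  unfold V; rw [V0_io]

theorem smul_eq_aff (g : GL (Fin 2) ℂ) (h : g 1 0 = 0) (z : OnePoint ℂ) :
    g • z = aff (g 0 0 / g 1 1) (g 0 1 / g 1 1) z := by
  have hdet : g 0 0 * g 1 1 ≠ 0 := by
    have := g.det_ne_zero
    rw [Matrix.det_fin_two] at this
    intro h0
    apply this
    rw [h0, h, mul_zero, sub_zero]
  have h11 : g 1 1 ≠ 0 := right_ne_zero_of_mul hdet
  induction z using OnePoint.rec with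
  | infty => rw [smul_infty_eq_ite, if_pos h]; rfl
  | coe z =>
    rw [smul_some_eq_ite, h, zero_mul, zero_add, if_neg h11, aff_coe]
    congr 1
    field_simp

theorem smul_eq_io (g : GL (Fin 2) ℂ) (h : g 1 0 ≠ 0) (z : OnePoint ℂ) :
    g • z = aff (-(g 0 0 * g 1 1 - g 0 1 * g 1 0) / g 1 0) (g 0 0 / g 1 0)
      (io (aff (g 1 0) (g 1 1) z)) := by
  induction z using OnePoint.rec with
  | infty =>
    rw [smul_infty_eq_ite, if_neg h, aff_infty, io_infty, aff_coe]
    congr 1
    ring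
  | coe z =>
    rw [smul_some_eq_ite, aff_coe]
    by_cases h0 : g 1 0 * z + g 1 1 = 0
    · rw [if_pos h0, h0, io_zero]; rfl
    · rw [if_neg h0, io_coe h0, aff_coe]
      congr 1
      rw [div_eq_iff h0, add_mul, mul_assoc, inv_mul_cancel₀ h0, mul_one]
      field_simp
      ring

/-- invariance under the action of `GL (Fin 2) ℂ` on `P^1(C)` -/
theorem V_smul (g : GL (Fin 2) ℂ) (a b c d : OnePoint ℂ) :
    V (g • a) (g • b) (g • c) (g • d) = V a b c d := by
  have hdet : g 0 0 * g 1 1 - g 0 1 * g 1 0 ≠ 0 := by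
    have := g.det_ne_zero
    rwa [Matrix.det_fin_two] at this
  by_cases h : g 1 0 = 0
  · have h2 : g 0 0 * g 1 1 ≠ 0 := by
      intro h0; apply hdet; rw [h0, h]; ring
    simp only [smul_eq_aff g h]
    exact V_aff _ (div_ne_zero (left_ne_zero_of_mul h2) (right_ne_zero_of_mul h2)) _ _ _ _
  · simp only [smul_eq_io g h]
    rw [V_aff _ (div_ne_zero (neg_ne_zero.mpr hdet) h), V_io, V_aff _ h]

/-- the bound for the normalised simplices -/
theorem W_bdd {t : ℂ} (ht : ‖t‖ ≤ 1) :
    |W ((0 : ℂ) : OnePoint ℂ) ((1 : ℂ) : OnePoint ℂ) (t : OnePoint ℂ)| ≤ 292 * GI := by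
  rw [W_eq]
  have hG := GI_nonneg
  have h1 : |∫ w, tm ((0 : ℂ) : OnePoint ℂ) ((1 : ℂ) : OnePoint ℂ) (t : OnePoint ℂ) w| ≤
      24 * GI := by
    have h := abs_integral_term_le_A (a := 0) (b := 1) (c := t) (by simp)
    have h2 : ‖(1 : ℂ) - t‖ ≤ 2 := by
      have := norm_sub_le (1 : ℂ) t
      rw [norm_one] at this; linarith
    refine le_trans h ?_
    nlinarith
  have h2 : |∫ w, tm ((1 : ℂ) : OnePoint ℂ) (t : OnePoint ℂ) ((0 : ℂ) : OnePoint ℂ) w| ≤
      16 * GI := by
    have h := abs_integral_term_le_A (a := 1) (b := 0) (c := t) (by simp)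
    have e : (fun w => tm ((1 : ℂ) : OnePoint ℂ) (t : OnePoint ℂ) ((0 : ℂ) : OnePoint ℂ) w) =
        fun w => - (Real.log ‖w - 1‖ * wd (w - 0)⁻¹ (w - t)⁻¹) := by
      funext w
      simp only [tm, DD, lam_coe, dl_coe]
      rw [wd_comm (w - t)⁻¹]; ring
    rw [e, integral_neg, abs_neg]
    refine le_trans h ?_
    rw [zero_sub, norm_neg]
    nlinarith
  have h3 : |∫ w, tm (t : OnePoint ℂ) ((0 : ℂ) : OnePoint ℂ) ((1 : ℂ) : OnePoint ℂ) w| ≤
      252 * GI := by
    have h2 : ‖t - 1‖ ≤ 2 := by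
      have := norm_sub_le t (1 : ℂ)
      rw [norm_one] at this; linarith
    have h := abs_integral_term_le_B (a := t) (b := 0) (c := 1) (R := 3) (by simp)
      (by rw [sub_zero]; linarith) (by linarith)
    refine le_trans h (le_of_eq ?_)
    have : ‖(0 : ℂ) - 1‖ = 1 := by simp
    rw [this]
    unfold CB
    ring
  calc _ ≤ _ := abs_add_three _ _ _
    _ ≤ 292 * GI := by linarith

theorem V_bdd_norm (t : ℂ) :
    |V ∞ ((0 : ℂ) : OnePoint ℂ) ((1 : ℂ) : OnePoint ℂ) (t : OnePoint ℂ)| ≤ 292 * GI := by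
  rcases le_total ‖t‖ 1 with h | h
  · unfold V
    rw [V0_infty, abs_neg]
    exact W_bdd h
  · have ht : t ≠ 0 := by
      intro h0; rw [h0, norm_zero] at h; linarith
    have h1 := V_aff 0 (inv_ne_zero ht) ∞ ((0 : ℂ) : OnePoint ℂ) ((1 : ℂ) : OnePoint ℂ)
      (t : OnePoint ℂ)
    simp only [aff_infty, aff_coe] at h1
    rw [show t⁻¹ * 0 + 0 = 0 by ring, show t⁻¹ * 1 + 0 = t⁻¹ by ring,
      show t⁻¹ * t + 0 = 1 by field_simp; ring] at h1
    rw [← h1, V_swap34, abs_neg]
    unfold V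
    rw [V0_infty, abs_neg]
    apply W_bdd
    rw [norm_inv]
    exact inv_le_one_of_one_le₀ h

theorem V_bdd_infty (b c d : OnePoint ℂ) : |V ∞ b c d| ≤ 292 * GI := by
  have hG := GI_nonneg
  have h0 : |(0 : ℝ)| ≤ 292 * GI := by rw [abs_zero]; positivity
  induction b using OnePoint.rec with
  | infty => rw [V_12]; exact h0
  | coe b =>
    induction c using OnePoint.rec with
    | infty => rw [V_13]; exact h0
    | coe c =>
      induction d using OnePoint.rec with
      | infty => rw [V_14]; exact h0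
      | coe d =>
        by_cases hbc : b = c
        · rw [hbc, V_23]; exact h0
        · have hcb : c - b ≠ 0 := sub_ne_zero.mpr (Ne.symm hbc)
          have h1 := V_aff (-b / (c - b)) (inv_ne_zero hcb) ∞ (b : OnePoint ℂ) (c : OnePoint ℂ)
            (d : OnePoint ℂ)
          simp only [aff_infty, aff_coe] at h1
          rw [show (c - b)⁻¹ * b + -b / (c - b) = 0 by field_simp; ring,
            show (c - b)⁻¹ * c + -b / (c - b) = 1 by field_simp; ring] at h1
          rw [← h1]
          exact V_bdd_norm _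

/-- `V` is bounded -/
theorem V_bdd : ∃ C : ℝ, ∀ a b c d : OnePoint ℂ, |V a b c d| ≤ C := by
  refine ⟨292 * GI, fun a b c d => ?_⟩
  induction a using OnePoint.rec with
  | infty => exact V_bdd_infty b c d
  | coe a =>
    have h1 := V_aff (-a) one_ne_zero (a : OnePoint ℂ) b c d
    have h2 := V_io (aff 1 (-a) (a : OnePoint ℂ)) (aff 1 (-a) b) (aff 1 (-a) c) (aff 1 (-a) d)
    rw [h1, aff_coe, show 1 * a + -a = 0 by ring, io_zero] at h2
    rw [← h2]
    exact V_bdd_infty _ _ _

/-- the regular ideal simplex has positive volume -/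
theorem V_omega : 0 < V ∞ ((0 : ℂ) : OnePoint ℂ) ((1 : ℂ) : OnePoint ℂ) (om : OnePoint ℂ) := by
  unfold V
  rw [V0_infty]
  linarith [W_om_neg]

end

end Pool.Helper53.CE
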