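import Mathlib

/-!
The volume cocycle on the Riemann sphere, part 1: the integrand and its integrability.
-/

namespace Pool.Helper53.CE

open MeasureTheory Set

noncomputable section

/-- the imaginary part of `u * conj v` -/
def wd (u v : ℂ) : ℝ := (u * (starRingEnd ℂ) v).im

theorem wd_eq (u v : ℂ) : wd u v = u.im * v.re - u.re * v.im := by
  simp [wd, Complex.mul_im]; ring

theorem wd_self (u : ℂ) : wd u u = 0 := by
  rw [wd_eq]; ring

theorem wd_comm (u v : ℂ) : wd u v = - wd v u := by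
  rw [wd_eq, wd_eq]; ring

theorem wd_sub_left (u u' v : ℂ) : wd (u - u') v = wd u v - wd u' v := by
  simp only [wd_eq, Complex.sub_re, Complex.sub_im]; ring

theorem wd_sub_right (u v v' : ℂ) : wd u (v - v') = wd u v - wd u v' := by
  simp only [wd_eq, Complex.sub_re, Complex.sub_im]; ring

theorem wd_zero_left (v : ℂ) : wd 0 v = 0 := by simp [wd_eq]

theorem wd_zero_right (v : ℂ) : wd v 0 = 0 := by simp [wd_eq]

theorem wd_mul (c u v : ℂ) : wd (c * u) (c * v) = ‖c‖ ^ 2 * wd u v := by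
  rw [← Complex.normSq_eq_norm_sq, Complex.normSq_apply]
  simp only [wd_eq, Complex.mul_re, Complex.mul_im]
  ring

theorem abs_wd_le (u v : ℂ) : |wd u v| ≤ ‖u‖ * ‖v‖ := by
  have h := Complex.abs_im_le_norm (u * (starRingEnd ℂ) v)
  rwa [norm_mul, RCLike.norm_conj] at h

/-- the radial majorant -/
def gg (t : ℝ) : ℝ := t ^ (-(5 / 4) : ℝ) * (1 + t)⁻¹

theorem gg_nonneg {t : ℝ} (ht : 0 ≤ t) : 0 ≤ gg t := by
  unfold gg; positivity

theorem gg_eq {t : ℝ} (ht : 0 < t) : gg t = t ^ (-(1 / 4) : ℝ) * (t⁻¹ * (1 + t)⁻¹) := by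
  unfold gg
  rw [show (-(5 / 4) : ℝ) = -(1 / 4) + (-1) by norm_num, Real.rpow_add ht, Real.rpow_neg_one]
  ring

theorem young {x v : ℝ} (hx : 0 < x) (hv : 0 < v) :
    x ^ (-(1 / 4) : ℝ) * (v⁻¹ * (1 + v)⁻¹) ≤ gg x + gg v := by
  rcases le_total x v with h | h
  · have h1 : x ^ (-(1 / 4) : ℝ) * (v⁻¹ * (1 + v)⁻¹) ≤ gg x := by
      rw [gg_eq hx]
      gcongr
    linarith [gg_nonneg hv.le]
  · have h1 : x ^ (-(1 / 4) : ℝ) * (v⁻¹ * (1 + v)⁻¹) ≤ gg v := by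
      rw [gg_eq hv]
      have : x ^ (-(1 / 4) : ℝ) ≤ v ^ (-(1 / 4) : ℝ) :=
        Real.rpow_le_rpow_of_nonpos hv h (by norm_num)
      gcongr
    linarith [gg_nonneg hx.le]

theorem abs_log_le {x : ℝ} (hx : 0 < x) :
    |Real.log x| ≤ 4 * |x - 1| * x ^ (-(1 / 4) : ℝ) := by
  obtain ⟨s, hs, hsx⟩ : ∃ s : ℝ, 0 < s ∧ s = x ^ ((1 / 4) : ℝ) := ⟨_, Real.rpow_pos_of_pos hx _, rfl⟩
  have h4 : s ^ 4 = x := by
    rw [hsx, ← Real.rpow_natCast, ← Real.rpow_mul hx.le]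
    norm_num
  have hinv : x ^ (-(1 / 4) : ℝ) = s⁻¹ := by
    rw [hsx, ← Real.rpow_neg hx.le]
  rw [hinv, ← h4, Real.log_pow]
  have h1 : Real.log s ≤ s - 1 := Real.log_le_sub_one_of_pos hs
  have h2 : -Real.log s ≤ s⁻¹ - 1 := by
    rw [← Real.log_inv]; exact Real.log_le_sub_one_of_pos (inv_pos.mpr hs)
  have key : |Real.log s| ≤ |s ^ 4 - 1| * s⁻¹ := by
    rw [← div_eq_mul_inv, le_div_iff₀ hs]
    rcases le_total 1 s with h | h
    · have h0 : 0 ≤ Real.log s := Real.log_nonneg h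
      have h3 : 1 ≤ s ^ 4 := one_le_pow₀ h
      rw [abs_of_nonneg h0, abs_of_nonneg (by linarith)]
      have : Real.log s * s ≤ (s - 1) * s := by gcongr
      have h5 : (s - 1) * s ≤ s ^ 4 - 1 := by
        have : s ^ 4 - 1 - (s - 1) * s = (s - 1) * (s ^ 3 + s ^ 2 + 1) := by ring
        have h6 : 0 ≤ (s - 1) * (s ^ 3 + s ^ 2 + 1) := mul_nonneg (by linarith) (by positivity)
        linarith
      linarith
    · have h0 : Real.log s ≤ 0 := Real.log_nonpos hs.le h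
      have h3 : s ^ 4 ≤ 1 := pow_le_one₀ hs.le h
      rw [abs_of_nonpos h0, abs_of_nonpos (by linarith)]
      have : -Real.log s * s ≤ (s⁻¹ - 1) * s := by gcongr
      have h5 : (s⁻¹ - 1) * s = 1 - s := by field_simp
      have h6 : s ^ 4 ≤ s := by
        calc s ^ 4 = s * s ^ 3 := by ring
          _ ≤ s * 1 := by
            gcongr
            exact pow_le_one₀ hs.le h
          _ = s := by ring
      linarith
  have : |((4 : ℕ) : ℝ) * Real.log s| = 4 * |Real.log s| := by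
    rw [abs_mul]; norm_num
  rw [this]
  nlinarith

theorem wd_inv_eq {w b c : ℂ} (hb : w ≠ b) (hc : w ≠ c) :
    wd (w - b)⁻¹ (w - c)⁻¹ = wd ((b - c) * ((w - b)⁻¹ * (w - c)⁻¹)) (w - c)⁻¹ := by
  have h : (b - c) * ((w - b)⁻¹ * (w - c)⁻¹) = (w - b)⁻¹ - (w - c)⁻¹ := by
    have h1 := sub_ne_zero.mpr hb
    have h2 := sub_ne_zero.mpr hc
    field_simp
    ring
  rw [h, wd_sub_left, wd_self, sub_zero]

theorem wd_bound0 (w b c : ℂ) :
    |wd (w - b)⁻¹ (w - c)⁻¹| ≤ ‖w - b‖⁻¹ * ‖w - c‖⁻¹ := by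
  have := abs_wd_le (w - b)⁻¹ (w - c)⁻¹
  rwa [norm_inv, norm_inv] at this

theorem wd_bound1 {w b c : ℂ} (hb : w ≠ b) (hc : w ≠ c) :
    |wd (w - b)⁻¹ (w - c)⁻¹| ≤ ‖b - c‖ * (‖w - b‖⁻¹ * (‖w - c‖⁻¹) ^ 2) := by
  rw [wd_inv_eq hb hc]
  refine (abs_wd_le _ _).trans (le_of_eq ?_)
  rw [norm_mul, norm_mul, norm_inv, norm_inv]
  ring

/-- the elementary bound when the logarithm is centred at distance one from `b` -/
theorem bound_A {a b c w : ℂ} (hab : ‖a - b‖ = 1) (ha : w ≠ a) (hb : w ≠ b) (hc : w ≠ c) :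
    |Real.log ‖w - a‖ * wd (w - b)⁻¹ (w - c)⁻¹| ≤
      4 * (1 + ‖b - c‖) * (gg ‖w - a‖ + gg ‖w - c‖) := by
  have hx : 0 < ‖w - a‖ := norm_pos_iff.mpr (sub_ne_zero.mpr ha)
  have hu : 0 < ‖w - b‖ := norm_pos_iff.mpr (sub_ne_zero.mpr hb)
  have hv : 0 < ‖w - c‖ := norm_pos_iff.mpr (sub_ne_zero.mpr hc)
  have hd : 0 ≤ ‖b - c‖ := norm_nonneg _
  have h1 : |‖w - a‖ - 1| ≤ ‖w - b‖ := by
    rw [← hab]
    have := abs_norm_sub_norm_le (w - a) (b - a)
    rw [show w - a - (b - a) = w - b by ring, norm_sub_rev b a] at this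
    exact this
  have h2 := abs_log_le hx
  have w0 := wd_bound0 w b c
  have w1 := wd_bound1 hb hc
  have hy := young hx hv
  generalize ‖w - a‖ = x at *
  generalize ‖w - b‖ = u at *
  generalize ‖w - c‖ = v at *
  generalize ‖b - c‖ = d at *
  generalize wd (w - b)⁻¹ (w - c)⁻¹ = q at *
  have h3 : u * |q| ≤ (1 + d) * (v⁻¹ * (1 + v)⁻¹) := by
    rcases le_total v d with h | h
    · calc u * |q| ≤ u * (u⁻¹ * v⁻¹) := by gcongr
        _ = v⁻¹ * 1 := by field_simp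
        _ ≤ v⁻¹ * ((1 + d) * (1 + v)⁻¹) := by
          gcongr
          rw [← div_eq_mul_inv, le_div_iff₀ (by linarith)]
          linarith
        _ = _ := by ring
    · have h6 : d * v⁻¹ ≤ (1 + d) * (1 + v)⁻¹ := by
        rw [← div_eq_mul_inv, ← div_eq_mul_inv, div_le_div_iff₀ hv (by linarith)]
        nlinarith
      calc u * |q| ≤ u * (d * (u⁻¹ * v⁻¹ ^ 2)) := by gcongr
        _ = v⁻¹ * (d * v⁻¹) := by field_simp
        _ ≤ v⁻¹ * ((1 + d) * (1 + v)⁻¹) := mul_le_mul_of_nonneg_left h6 (by positivity)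
        _ = _ := by ring
  rw [abs_mul]
  calc |Real.log x| * |q| ≤ (4 * |x - 1| * x ^ (-(1 / 4) : ℝ)) * |q| := by gcongr
    _ ≤ (4 * u * x ^ (-(1 / 4) : ℝ)) * |q| := by gcongr
    _ = 4 * x ^ (-(1 / 4) : ℝ) * (u * |q|) := by ring
    _ ≤ 4 * x ^ (-(1 / 4) : ℝ) * ((1 + d) * (v⁻¹ * (1 + v)⁻¹)) := by gcongr
    _ = 4 * (1 + d) * (x ^ (-(1 / 4) : ℝ) * (v⁻¹ * (1 + v)⁻¹)) := by ring
    _ ≤ 4 * (1 + d) * (gg x + gg v) := by gcongr

/-- constant of the general bound -/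
def CB (d R : ℝ) : ℝ := 4 * ((d + 2 * R) * (d + 2) / d)

theorem bound_B_aux {x u v d R q : ℝ} (hx : 0 < x) (hu : 0 < u) (hv : 0 < v) (hd : 0 < d)
    (hR : 0 ≤ R) (huv : u ≤ v) (hdv : d ≤ 2 * v) (hxu : x + 1 ≤ u + R)
    (hq : |q| ≤ d * (u⁻¹ * v⁻¹ ^ 2)) :
    |Real.log x * q| ≤ CB d R * (gg x + gg u) := by
  have h2 := abs_log_le hx
  have hy := young hx hu
  have h1 : |x - 1| ≤ u + R := by
    rw [abs_le]; constructor <;> linarith
  have e1 : (u + R) * d ≤ v * (d + 2 * R) := by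
    nlinarith [mul_nonneg hR (sub_nonneg.mpr hdv), mul_nonneg hd.le (sub_nonneg.mpr huv)]
  have e2 : (1 + u) * d ≤ v * (d + 2) := by
    nlinarith [mul_nonneg hd.le (sub_nonneg.mpr huv)]
  have h3 : (u + R) * |q| ≤ ((d + 2 * R) * (d + 2) / d) * (u⁻¹ * (1 + u)⁻¹) := by
    have e3 : (u + R) * (1 + u) * (d * v⁻¹ ^ 2) ≤ (d + 2 * R) * (d + 2) / d := by
      rw [le_div_iff₀ hd]
      have e4 : ((u + R) * d) * ((1 + u) * d) ≤ (v * (d + 2 * R)) * (v * (d + 2)) := by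
        gcongr
      calc (u + R) * (1 + u) * (d * v⁻¹ ^ 2) * d = (((u + R) * d) * ((1 + u) * d)) * v⁻¹ ^ 2 := by
            ring
        _ ≤ ((v * (d + 2 * R)) * (v * (d + 2))) * v⁻¹ ^ 2 := by gcongr
        _ = (d + 2 * R) * (d + 2) := by field_simp
    calc (u + R) * |q| ≤ (u + R) * (d * (u⁻¹ * v⁻¹ ^ 2)) := by gcongr
      _ = ((u + R) * (1 + u) * (d * v⁻¹ ^ 2)) * (u⁻¹ * (1 + u)⁻¹) := by field_simp
      _ ≤ _ := by gcongr
  rw [abs_mul]
  calc |Real.log x| * |q| ≤ (4 * |x - 1| * x ^ (-(1 / 4) : ℝ)) * |q| := by gcongr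
    _ ≤ (4 * (u + R) * x ^ (-(1 / 4) : ℝ)) * |q| := by gcongr
    _ = 4 * x ^ (-(1 / 4) : ℝ) * ((u + R) * |q|) := by ring
    _ ≤ 4 * x ^ (-(1 / 4) : ℝ) * (((d + 2 * R) * (d + 2) / d) * (u⁻¹ * (1 + u)⁻¹)) := by gcongr
    _ = CB d R * (x ^ (-(1 / 4) : ℝ) * (u⁻¹ * (1 + u)⁻¹)) := by unfold CB; ring
    _ ≤ CB d R * (gg x + gg u) := by
      have : 0 ≤ CB d R := by unfold CB; positivity
      gcongr

theorem CB_nonneg {d R : ℝ} (hd : 0 < d) (hR : 0 ≤ R) : 0 ≤ CB d R := by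
  unfold CB; positivity

/-- the elementary bound for distinct `b, c` -/
theorem bound_B {a b c w : ℂ} {R : ℝ} (hbc : b ≠ c) (hRb : ‖a - b‖ + 1 ≤ R)
    (hRc : ‖a - c‖ + 1 ≤ R) (ha : w ≠ a) (hb : w ≠ b) (hc : w ≠ c) :
    |Real.log ‖w - a‖ * wd (w - b)⁻¹ (w - c)⁻¹| ≤
      CB ‖b - c‖ R * (gg ‖w - a‖ + gg ‖w - b‖ + gg ‖w - c‖) := by
  have hx : 0 < ‖w - a‖ := norm_pos_iff.mpr (sub_ne_zero.mpr ha)
  have hu : 0 < ‖w - b‖ := norm_pos_iff.mpr (sub_ne_zero.mpr hb)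
  have hv : 0 < ‖w - c‖ := norm_pos_iff.mpr (sub_ne_zero.mpr hc)
  have hd : 0 < ‖b - c‖ := norm_pos_iff.mpr (sub_ne_zero.mpr hbc)
  have hR : 0 ≤ R := by linarith [norm_nonneg (a - b)]
  have tri : ‖b - c‖ ≤ ‖w - b‖ + ‖w - c‖ := by
    have := norm_sub_le (w - c) (w - b)
    rw [show w - c - (w - b) = b - c by ring] at this
    linarith
  have tb : ‖w - a‖ ≤ ‖w - b‖ + ‖a - b‖ := by
    have := norm_sub_le (w - b) (a - b)
    rwa [show w - b - (a - b) = w - a by ring] at this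
  have tc : ‖w - a‖ ≤ ‖w - c‖ + ‖a - c‖ := by
    have := norm_sub_le (w - c) (a - c)
    rwa [show w - c - (a - c) = w - a by ring] at this
  have hC : 0 ≤ CB ‖b - c‖ R := CB_nonneg hd hR
  have g1 := gg_nonneg hx.le
  have g2 := gg_nonneg hu.le
  have g3 := gg_nonneg hv.le
  rcases le_total ‖w - b‖ ‖w - c‖ with h | h
  · exact (bound_B_aux (R := R) hx hu hv hd hR h (by linarith) (by linarith)
      (wd_bound1 hb hc)).trans (mul_le_mul_of_nonneg_left (by linarith) hC)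
  · have h4 : |wd (w - b)⁻¹ (w - c)⁻¹| ≤ ‖b - c‖ * (‖w - c‖⁻¹ * ‖w - b‖⁻¹ ^ 2) := by
      rw [wd_comm, abs_neg, norm_sub_rev b c]
      exact wd_bound1 hc hb
    exact (bound_B_aux (R := R) hx hv hu hd hR h (by linarith) (by linarith) h4).trans
      (mul_le_mul_of_nonneg_left (by linarith) hC)

theorem bound_D_aux {u v d q : ℝ} (hu : 0 < u) (hv : 0 < v) (hd : 0 < d)
    (huv : u ≤ v) (hdv : d ≤ 2 * v)
    (hq : |q| ≤ d * (u⁻¹ * v⁻¹ ^ 2)) :
    |q| ≤ ((d + 2) ^ 2 / d) * gg u := by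
  have e2 : (1 + u) * d ≤ v * (d + 2) := by
    nlinarith [mul_nonneg hd.le (sub_nonneg.mpr huv)]
  have h0 : (1 + u)⁻¹ ≤ u ^ (-(1 / 4) : ℝ) := by
    rw [← Real.rpow_neg_one]
    calc (1 + u) ^ (-1 : ℝ) ≤ (1 + u) ^ (-(1 / 4) : ℝ) :=
          Real.rpow_le_rpow_of_exponent_le (by linarith) (by norm_num)
      _ ≤ u ^ (-(1 / 4) : ℝ) := Real.rpow_le_rpow_of_nonpos hu (by linarith) (by norm_num)
  have e3 : (1 + u) ^ 2 * (d * v⁻¹ ^ 2) ≤ (d + 2) ^ 2 / d := by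
    rw [le_div_iff₀ hd]
    have e4 : ((1 + u) * d) ^ 2 ≤ (v * (d + 2)) ^ 2 := by
      gcongr
    calc (1 + u) ^ 2 * (d * v⁻¹ ^ 2) * d = (((1 + u) * d) ^ 2) * v⁻¹ ^ 2 := by
          ring
      _ ≤ ((v * (d + 2)) ^ 2) * v⁻¹ ^ 2 := by gcongr
      _ = (d + 2) ^ 2 := by field_simp
  rw [gg_eq hu]
  calc |q| ≤ d * (u⁻¹ * v⁻¹ ^ 2) := hq
    _ = ((1 + u) ^ 2 * (d * v⁻¹ ^ 2)) * ((1 + u)⁻¹ * (u⁻¹ * (1 + u)⁻¹)) := by field_simp
    _ ≤ ((d + 2) ^ 2 / d) * (u ^ (-(1 / 4) : ℝ) * (u⁻¹ * (1 + u)⁻¹)) := by gcongr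

theorem bound_D {b c w : ℂ} (hbc : b ≠ c) (hb : w ≠ b) (hc : w ≠ c) :
    |wd (w - b)⁻¹ (w - c)⁻¹| ≤
      ((‖b - c‖ + 2) ^ 2 / ‖b - c‖) * (gg ‖w - b‖ + gg ‖w - c‖) := by
  have hu : 0 < ‖w - b‖ := norm_pos_iff.mpr (sub_ne_zero.mpr hb)
  have hv : 0 < ‖w - c‖ := norm_pos_iff.mpr (sub_ne_zero.mpr hc)
  have hd : 0 < ‖b - c‖ := norm_pos_iff.mpr (sub_ne_zero.mpr hbc)
  have tri : ‖b - c‖ ≤ ‖w - b‖ + ‖w - c‖ := by
    have := norm_sub_le (w - c) (w - b)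
    rw [show w - c - (w - b) = b - c by ring] at this
    linarith
  have g2 := gg_nonneg hu.le
  have g3 := gg_nonneg hv.le
  rcases le_total ‖w - b‖ ‖w - c‖ with h | h
  · refine (bound_D_aux hu hv hd h (by linarith) (wd_bound1 hb hc)).trans ?_
    gcongr
    linarith
  · have h4 : |wd (w - b)⁻¹ (w - c)⁻¹| ≤ ‖b - c‖ * (‖w - c‖⁻¹ * ‖w - b‖⁻¹ ^ 2) := by
      rw [wd_comm, abs_neg, norm_sub_rev b c]
      exact wd_bound1 hc hb
    refine (bound_D_aux hv hu hd h (by linarith) h4).trans ?_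
    gcongr
    linarith

/-- the radial majorant is integrable on the plane -/
theorem integrable_gg : Integrable (fun w : ℂ => gg ‖w‖) := by
  rw [integrable_fun_norm_addHaar volume (f := gg)]
  rw [Complex.finrank_real_complex]
  have hs : Ioi (0 : ℝ) = Ioc 0 1 ∪ Ioi 1 := (Ioc_union_Ioi_eq_Ioi zero_le_one).symm
  have hm : Measurable (fun y : ℝ => y ^ (2 - 1) • gg y) := by
    unfold gg
    simp only [smul_eq_mul]
    fun_prop
  rw [hs]
  apply IntegrableOn.union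
  · have h1 : IntegrableOn (fun y : ℝ => y ^ (-(1 / 4) : ℝ)) (Ioc 0 1) := by
      have := (intervalIntegral.intervalIntegrable_rpow' (a := 0) (b := 1)
        (r := (-(1 / 4) : ℝ)) (by norm_num)).1
      exact this
    refine Integrable.mono' h1 hm.aestronglyMeasurable ?_
    rw [ae_restrict_iff' measurableSet_Ioc]
    filter_upwards with y hy
    have hy0 : 0 < y := hy.1
    rw [smul_eq_mul, gg_eq hy0, Real.norm_of_nonneg (by positivity)]
    have : (1 + y)⁻¹ ≤ 1 := inv_le_one_of_one_le₀ (by linarith)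
    calc y ^ (2 - 1) * (y ^ (-(1 / 4) : ℝ) * (y⁻¹ * (1 + y)⁻¹)) =
        y ^ (-(1 / 4) : ℝ) * (1 + y)⁻¹ := by
          rw [show (2 : ℕ) - 1 = 1 from rfl, pow_one]
          field_simp
      _ ≤ y ^ (-(1 / 4) : ℝ) * 1 := by gcongr
      _ = _ := mul_one _
  · have h1 : IntegrableOn (fun y : ℝ => y ^ (-(5 / 4) : ℝ)) (Ioi 1) :=
      integrableOn_Ioi_rpow_of_lt (by norm_num) one_pos
    refine Integrable.mono' h1 hm.aestronglyMeasurable ?_
    rw [ae_restrict_iff' measurableSet_Ioi]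
    filter_upwards with y hy
    have hy1 : 1 < y := hy
    have hy0 : 0 < y := by linarith
    rw [smul_eq_mul, Real.norm_of_nonneg (mul_nonneg (by positivity) (gg_nonneg hy0.le))]
    have : y * (1 + y)⁻¹ ≤ 1 := by
      rw [← div_eq_mul_inv, div_le_one (by linarith)]; linarith
    calc y ^ (2 - 1) * gg y = (y * (1 + y)⁻¹) * y ^ (-(5 / 4) : ℝ) := by unfold gg; ring
      _ ≤ 1 * y ^ (-(5 / 4) : ℝ) := by gcongr
      _ = _ := one_mul _

theorem integrable_gg_sub (a : ℂ) : Integrable (fun w : ℂ => gg ‖w - a‖) :=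
  integrable_gg.comp_sub_right a

theorem integral_gg_sub (a : ℂ) : ∫ w : ℂ, gg ‖w - a‖ = ∫ w : ℂ, gg ‖w‖ :=
  integral_sub_right_eq_self (fun w : ℂ => gg ‖w‖) a

theorem ae_ne3 (a b c : ℂ) : ∀ᵐ w : ℂ, w ≠ a ∧ w ≠ b ∧ w ≠ c := by
  have h : ({a, b, c} : Set ℂ)ᶜ ∈ ae (volume : Measure ℂ) := by
    rw [compl_mem_ae_iff]
    exact (Set.toFinite _).measure_zero _
  filter_upwards [h] with w hw
  simp only [mem_compl_iff, mem_insert_iff, mem_singleton_iff, not_or] at hw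
  exact hw

theorem measurable_wd_inv (b c : ℂ) : Measurable (fun w : ℂ => wd (w - b)⁻¹ (w - c)⁻¹) := by
  unfold wd
  apply Complex.measurable_im.comp
  apply Measurable.mul
  · exact (measurable_id.sub_const b).inv
  · exact Complex.continuous_conj.measurable.comp (measurable_id.sub_const c).inv

theorem measurable_log_norm (a : ℂ) : Measurable (fun w : ℂ => Real.log ‖w - a‖) :=
  Real.measurable_log.comp (measurable_id.sub_const a).norm

theorem integrable_wd_inv (b c : ℂ) : Integrable (fun w : ℂ => wd (w - b)⁻¹ (w - c)⁻¹) := by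
  by_cases hbc : b = c
  · subst hbc
    simp only [wd_self]
    exact integrable_zero _ _ _
  refine Integrable.mono' (((integrable_gg_sub b).add (integrable_gg_sub c)).const_mul
    ((‖b - c‖ + 2) ^ 2 / ‖b - c‖)) (measurable_wd_inv b c).aestronglyMeasurable ?_
  filter_upwards [ae_ne3 b b c] with w hw
  exact bound_D hbc hw.1 hw.2.2

theorem integrable_term (a b c : ℂ) :
    Integrable (fun w : ℂ => Real.log ‖w - a‖ * wd (w - b)⁻¹ (w - c)⁻¹) := by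
  by_cases hbc : b = c
  · subst hbc
    simp only [wd_self, mul_zero]
    exact integrable_zero _ _ _
  refine Integrable.mono' ((((integrable_gg_sub a).add (integrable_gg_sub b)).add
    (integrable_gg_sub c)).const_mul (CB ‖b - c‖ (‖a - b‖ + ‖a - c‖ + 1)))
    ((measurable_log_norm a).mul (measurable_wd_inv b c)).aestronglyMeasurable ?_
  filter_upwards [ae_ne3 a b c] with w hw
  exact bound_B hbc (by linarith [norm_nonneg (a - c)]) (by linarith [norm_nonneg (a - b)])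
    hw.1 hw.2.1 hw.2.2

/-- the total mass of the majorant -/
def GI : ℝ := ∫ w : ℂ, gg ‖w‖

theorem GI_nonneg : 0 ≤ GI := integral_nonneg fun _ => gg_nonneg (norm_nonneg _)

theorem abs_integral_term_le_A {a b c : ℂ} (hab : ‖a - b‖ = 1) :
    |∫ w : ℂ, Real.log ‖w - a‖ * wd (w - b)⁻¹ (w - c)⁻¹| ≤ 8 * (1 + ‖b - c‖) * GI := by
  rw [← Real.norm_eq_abs]
  refine (norm_integral_le_of_norm_le (((integrable_gg_sub a).add
    (integrable_gg_sub c)).const_mul (4 * (1 + ‖b - c‖))) ?_).trans (le_of_eq ?_)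
  · filter_upwards [ae_ne3 a b c] with w hw
    exact bound_A hab hw.1 hw.2.1 hw.2.2
  · simp only [Pi.add_apply]
    rw [integral_const_mul, integral_add (integrable_gg_sub a) (integrable_gg_sub c),
      integral_gg_sub, integral_gg_sub, GI]
    ring

theorem abs_integral_term_le_B {a b c : ℂ} {R : ℝ} (hbc : b ≠ c) (hRb : ‖a - b‖ + 1 ≤ R)
    (hRc : ‖a - c‖ + 1 ≤ R) :
    |∫ w : ℂ, Real.log ‖w - a‖ * wd (w - b)⁻¹ (w - c)⁻¹| ≤ 3 * CB ‖b - c‖ R * GI := by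
  rw [← Real.norm_eq_abs]
  refine (norm_integral_le_of_norm_le ((((integrable_gg_sub a).add (integrable_gg_sub b)).add
    (integrable_gg_sub c)).const_mul (CB ‖b - c‖ R)) ?_).trans (le_of_eq ?_)
  · filter_upwards [ae_ne3 a b c] with w hw
    exact bound_B hbc hRb hRc hw.1 hw.2.1 hw.2.2
  · have e1 : ∫ w : ℂ, (gg ‖w - a‖ + gg ‖w - b‖ + gg ‖w - c‖) = 3 * GI := by
      have e2 : ∫ w : ℂ, (gg ‖w - a‖ + gg ‖w - b‖) = 2 * GI := by
        rw [integral_add (integrable_gg_sub a) (integrable_gg_sub b),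
          integral_gg_sub, integral_gg_sub, GI]
        ring
      have e3 := integral_add (f := fun w : ℂ => gg ‖w - a‖ + gg ‖w - b‖)
        (g := fun w : ℂ => gg ‖w - c‖) ((integrable_gg_sub a).add (integrable_gg_sub b))
        (integrable_gg_sub c)
      rw [e3, e2, integral_gg_sub, ← GI]
      ring
    simp only [Pi.add_apply]
    rw [integral_const_mul, e1]
    ring

end

end Pool.Helper53.CE
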