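import Pool.Agent.Helper53.CE.VolInt

/-!
The volume cocycle on the Riemann sphere, part 2: definition, cocycle relation, invariance.
-/

namespace Pool.Helper53.CE

open MeasureTheory Set OnePoint

noncomputable section

/-- `log |w - z|`, read as `0` for `z = ∞` -/
def lam (z : OnePoint ℂ) (w : ℂ) : ℝ := z.elim 0 (fun z => Real.log ‖w - z‖)

/-- `1 / (w - z)`, read as `0` for `z = ∞` -/
def dl (z : OnePoint ℂ) (w : ℂ) : ℂ := z.elim 0 (fun z => (w - z)⁻¹)

@[simp] theorem lam_infty (w : ℂ) : lam ∞ w = 0 := rfl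
@[simp] theorem lam_coe (z w : ℂ) : lam (z : OnePoint ℂ) w = Real.log ‖w - z‖ := rfl
@[simp] theorem dl_infty (w : ℂ) : dl ∞ w = 0 := rfl
@[simp] theorem dl_coe (z w : ℂ) : dl (z : OnePoint ℂ) w = (w - z)⁻¹ := rfl

/-- the density of `dlog|w-b| ∧ dlog|w-c|` -/
def DD (b c : OnePoint ℂ) (w : ℂ) : ℝ := wd (dl b w) (dl c w)

/-- one term of the integrand -/
def tm (a b c : OnePoint ℂ) (w : ℂ) : ℝ := lam a w * DD b c w

/-- the integrand -/
def TT (a b c : OnePoint ℂ) (w : ℂ) : ℝ := tm a b c w + tm b c a w + tm c a b w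

/-- the primitive of the volume cocycle -/
def W (a b c : OnePoint ℂ) : ℝ := ∫ w : ℂ, TT a b c w

theorem integrable_DD (b c : OnePoint ℂ) : Integrable (DD b c) := by
  induction b using OnePoint.rec with
  | infty =>
    have : DD ∞ c = fun _ => 0 := by funext w; simp [DD, wd_zero_left]
    rw [this]; exact integrable_zero _ _ _
  | coe b =>
    induction c using OnePoint.rec with
    | infty =>
      have : DD b ∞ = fun _ => 0 := by funext w; simp [DD, wd_zero_right]
      rw [this]; exact integrable_zero _ _ _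
    | coe c => exact integrable_wd_inv b c

theorem integrable_tm (a b c : OnePoint ℂ) : Integrable (tm a b c) := by
  induction a using OnePoint.rec with
  | infty =>
    have : tm ∞ b c = fun _ => 0 := by funext w; simp [tm]
    rw [this]; exact integrable_zero _ _ _
  | coe a =>
    induction b using OnePoint.rec with
    | infty =>
      have : tm a ∞ c = fun _ => 0 := by funext w; simp [tm, DD, wd_zero_left]
      rw [this]; exact integrable_zero _ _ _
    | coe b =>
      induction c using OnePoint.rec with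
      | infty =>
        have : tm a b ∞ = fun _ => 0 := by funext w; simp [tm, DD, wd_zero_right]
        rw [this]; exact integrable_zero _ _ _
      | coe c => exact integrable_term a b c

theorem integrable_TT (a b c : OnePoint ℂ) : Integrable (TT a b c) :=
  ((integrable_tm a b c).add (integrable_tm b c a)).add (integrable_tm c a b)

theorem W_eq (a b c : OnePoint ℂ) :
    W a b c = (∫ w, tm a b c w) + (∫ w, tm b c a w) + ∫ w, tm c a b w := by
  unfold W TT
  rw [integral_add (f := fun w => tm a b c w + tm b c a w)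
    ((integrable_tm a b c).add (integrable_tm b c a)) (integrable_tm c a b),
    integral_add (integrable_tm a b c) (integrable_tm b c a)]

theorem integral_DD (b c : OnePoint ℂ) : ∫ w, DD b c w = 0 := by
  induction b using OnePoint.rec with
  | infty => simp [DD, wd_zero_left]
  | coe b =>
    induction c using OnePoint.rec with
    | infty => simp [DD, wd_zero_right]
    | coe c =>
      have h := integral_sub_left_eq_self (fun w : ℂ => DD b c w) volume (b + c)
      have h2 : (fun w : ℂ => DD b c (b + c - w)) = fun w => - DD b c w := by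
        funext w
        have e1 : b + c - w - b = -(w - c) := by ring
        have e2 : b + c - w - c = -(w - b) := by ring
        simp only [DD, dl_coe]
        rw [e1, e2, inv_neg, inv_neg, wd_comm (w - b)⁻¹, wd_eq, wd_eq]
        simp
      rw [h2, integral_neg] at h
      linarith

theorem TT_swap12 (a b c : OnePoint ℂ) (w : ℂ) : TT b a c w = - TT a b c w := by
  simp only [TT, tm, DD, wd_eq]; ring

theorem TT_swap23 (a b c : OnePoint ℂ) (w : ℂ) : TT a c b w = - TT a b c w := by
  simp only [TT, tm, DD, wd_eq]; ring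

theorem TT_infty (b c : OnePoint ℂ) (w : ℂ) : TT ∞ b c w = 0 := by
  simp [TT, tm, DD, wd_eq]

theorem W_swap12 (a b c : OnePoint ℂ) : W b a c = - W a b c := by
  unfold W
  rw [← integral_neg]
  exact integral_congr_ae (Filter.Eventually.of_forall fun w => TT_swap12 a b c w)

theorem W_swap23 (a b c : OnePoint ℂ) : W a c b = - W a b c := by
  unfold W
  rw [← integral_neg]
  exact integral_congr_ae (Filter.Eventually.of_forall fun w => TT_swap23 a b c w)

theorem W_infty (b c : OnePoint ℂ) : W ∞ b c = 0 := by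
  unfold W
  simp [TT_infty]

/-- the volume cocycle up to sign -/
def V0 (a b c d : OnePoint ℂ) : ℝ := W b c d - W a c d + W a b d - W a b c

theorem V0_cocycle (a b c d e : OnePoint ℂ) :
    V0 b c d e - V0 a c d e + V0 a b d e - V0 a b c e + V0 a b c d = 0 := by
  unfold V0; ring

theorem V0_swap12 (a b c d : OnePoint ℂ) : V0 b a c d = - V0 a b c d := by
  unfold V0; rw [W_swap12 a b d, W_swap12 a b c]; ring

theorem V0_swap23 (a b c d : OnePoint ℂ) : V0 a c b d = - V0 a b c d := by
  unfold V0; rw [W_swap12 b c d, W_swap23 a b c]; ring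

theorem V0_swap34 (a b c d : OnePoint ℂ) : V0 a b d c = - V0 a b c d := by
  unfold V0; rw [W_swap23 b c d, W_swap23 a c d]; ring

theorem V0_infty (b c d : OnePoint ℂ) : V0 ∞ b c d = W b c d := by
  unfold V0; simp only [W_infty]; ring

/-- change of variables under a transformation of the sphere -/
theorem W_transform (φ : OnePoint ℂ → OnePoint ℂ) (e : OnePoint ℂ) (f f' : ℂ → ℂ)
    (hcov : ∀ g : ℂ → ℝ, ∫ w, g w = ∫ w, ‖f' w‖ ^ 2 * g (f w))
    (H : ∀ z, ∃ κ : ℝ, ∀ᵐ w : ℂ, lam (φ z) (f w) = lam z w - lam e w - κ ∧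
      f' w * dl (φ z) (f w) = dl z w - dl e w) (a b c : OnePoint ℂ) :
    W (φ a) (φ b) (φ c) = V0 e a b c := by
  obtain ⟨ka, ha⟩ := H a
  obtain ⟨kb, hb⟩ := H b
  obtain ⟨kc, hc⟩ := H c
  have h1 : W (φ a) (φ b) (φ c) = ∫ w : ℂ, ((TT a b c w - TT e b c w + TT e a c w - TT e a b w) -
      (ka * (DD b c w - DD b e w - DD e c w) + kb * (DD c a w - DD c e w - DD e a w) +
        kc * (DD a b w - DD a e w - DD e b w))) := by
    unfold W
    rw [hcov]
    apply integral_congr_ae
    filter_upwards [ha, hb, hc] with w hwa hwb hwc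
    have key : ∀ x y z : OnePoint ℂ, ‖f' w‖ ^ 2 * tm x y z (f w) =
        lam x (f w) * wd (f' w * dl y (f w)) (f' w * dl z (f w)) := by
      intro x y z
      rw [wd_mul, tm, DD]; ring
    rw [TT, mul_add, mul_add, key, key, key, hwa.1, hwa.2, hwb.1, hwb.2, hwc.1, hwc.2]
    simp only [TT, tm, DD, wd_eq, Complex.sub_re, Complex.sub_im]
    ring
  have hT := integrable_TT
  have hD := integrable_DD
  have iD3 : ∀ x y : OnePoint ℂ, Integrable (fun w => DD x y w - DD x e w - DD e y w) :=
    fun x y => ((hD x y).sub (hD x e)).sub (hD e y)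
  have zD3 : ∀ x y : OnePoint ℂ, ∫ w, (DD x y w - DD x e w - DD e y w) = 0 := by
    intro x y
    rw [integral_sub (f := fun w => DD x y w - DD x e w) ((hD x y).sub (hD x e)) (hD e y),
      integral_sub (hD x y) (hD x e), integral_DD, integral_DD, integral_DD]
    ring
  have iF2 : Integrable (fun w => (ka * (DD b c w - DD b e w - DD e c w) +
      kb * (DD c a w - DD c e w - DD e a w) + kc * (DD a b w - DD a e w - DD e b w))) :=
    (((iD3 b c).const_mul ka).add ((iD3 c a).const_mul kb)).add ((iD3 a b).const_mul kc)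
  have zF2 : ∫ w, (ka * (DD b c w - DD b e w - DD e c w) +
      kb * (DD c a w - DD c e w - DD e a w) + kc * (DD a b w - DD a e w - DD e b w)) = 0 := by
    rw [integral_add (f := fun w => ka * (DD b c w - DD b e w - DD e c w) +
      kb * (DD c a w - DD c e w - DD e a w))
      (((iD3 b c).const_mul ka).add ((iD3 c a).const_mul kb)) ((iD3 a b).const_mul kc),
      integral_add ((iD3 b c).const_mul ka) ((iD3 c a).const_mul kb),
      integral_const_mul, integral_const_mul, integral_const_mul, zD3, zD3, zD3]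
    ring
  have iF1 : Integrable (fun w => TT a b c w - TT e b c w + TT e a c w - TT e a b w) :=
    (((hT a b c).sub (hT e b c)).add (hT e a c)).sub (hT e a b)
  rw [h1, integral_sub iF1 iF2, zF2, sub_zero,
    integral_sub (f := fun w => TT a b c w - TT e b c w + TT e a c w)
      (((hT a b c).sub (hT e b c)).add (hT e a c)) (hT e a b),
    integral_add (f := fun w => TT a b c w - TT e b c w)
      ((hT a b c).sub (hT e b c)) (hT e a c),
    integral_sub (hT a b c) (hT e b c)]
  rfl

theorem V0_transform (φ : OnePoint ℂ → OnePoint ℂ) (e : OnePoint ℂ) (f f' : ℂ → ℂ)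
    (hφ : φ e = ∞)
    (hcov : ∀ g : ℂ → ℝ, ∫ w, g w = ∫ w, ‖f' w‖ ^ 2 * g (f w))
    (H : ∀ z, ∃ κ : ℝ, ∀ᵐ w : ℂ, lam (φ z) (f w) = lam z w - lam e w - κ ∧
      f' w * dl (φ z) (f w) = dl z w - dl e w) (a b c d : OnePoint ℂ) :
    V0 (φ a) (φ b) (φ c) (φ d) = V0 a b c d := by
  have key : ∀ x y z : OnePoint ℂ, V0 (φ e) (φ x) (φ y) (φ z) = V0 e x y z := by
    intro x y z
    rw [hφ, V0_infty, W_transform φ e f f' hcov H]
  have h1 := V0_cocycle (φ e) (φ a) (φ b) (φ c) (φ d)
  have h2 := V0_cocycle e a b c d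
  rw [key, key, key, key] at h1
  linarith

/-- change of variables for holomorphic maps -/
theorem cov {s : Set ℂ} (hs : MeasurableSet s) {f f' : ℂ → ℂ}
    (hf : ∀ x ∈ s, HasDerivAt f (f' x) x) (hinj : InjOn f s) (g : ℂ → ℝ) :
    ∫ x in f '' s, g x = ∫ x in s, ‖f' x‖ ^ 2 * g (f x) := by
  rw [integral_image_eq_integral_abs_det_fderiv_smul volume hs
    (fun x hx => ((hf x hx).hasFDerivAt.restrictScalars ℝ).hasFDerivWithinAt) hinj g]
  congr 1
  funext x
  have h1 : ((ContinuousLinearMap.toSpanSingleton ℂ (f' x)).restrictScalars ℝ).det = ‖f' x‖ ^ 2 := by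
    simp [ContinuousLinearMap.det, LinearMap.det_restrictScalars, Algebra.norm_complex_eq,
      Complex.normSq_eq_norm_sq]
  rw [h1, abs_of_nonneg (by positivity), smul_eq_mul]

theorem cov_aff {A : ℂ} (B : ℂ) (hA : A ≠ 0) (g : ℂ → ℝ) :
    ∫ w, g w = ∫ w, ‖A‖ ^ 2 * g (A * w + B) := by
  have h := cov (s := univ) MeasurableSet.univ (f := fun w => A * w + B) (f' := fun _ => A)
    (fun x _ => by simpa using ((hasDerivAt_id x).const_mul A).add_const B)
    (fun x _ y _ hxy => by
      have : A * x = A * y := by simpa using hxy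
      exact mul_left_cancel₀ hA this) g
  rw [image_univ, (show range (fun w : ℂ => A * w + B) = univ from
    range_eq_univ.mpr fun y => ⟨(y - B) / A, by field_simp; ring⟩), setIntegral_univ,
    setIntegral_univ] at h
  exact h

theorem cov_inv (g : ℂ → ℝ) :
    ∫ w, g w = ∫ w, ‖-(w ^ 2)⁻¹‖ ^ 2 * g (w⁻¹) := by
  have h := cov (s := {0}ᶜ) (measurableSet_singleton 0).compl (f := fun w => w⁻¹)
    (f' := fun w => -(w ^ 2)⁻¹)
    (fun x hx => hasDerivAt_inv (by simpa using hx))
    (fun x _ y _ hxy => inv_injective hxy) g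
  rw [(show (fun w : ℂ => w⁻¹) '' {0}ᶜ = {0}ᶜ from by
    ext y
    simp only [mem_image, mem_compl_iff, mem_singleton_iff]
    constructor
    · rintro ⟨x, hx, rfl⟩
      exact inv_ne_zero hx
    · intro hy
      exact ⟨y⁻¹, inv_ne_zero hy, inv_inv y⟩)] at h
  rw [restrict_compl_singleton] at h
  exact h

/-- affine maps of the sphere -/
def aff (A B : ℂ) (z : OnePoint ℂ) : OnePoint ℂ := z.elim ∞ (fun z => ((A * z + B : ℂ) : OnePoint ℂ))

/-- inversion of the sphere -/
def io (z : OnePoint ℂ) : OnePoint ℂ :=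
  z.elim ((0 : ℂ) : OnePoint ℂ) (fun z => if z = 0 then ∞ else ((z⁻¹ : ℂ) : OnePoint ℂ))

@[simp] theorem aff_infty (A B : ℂ) : aff A B ∞ = ∞ := rfl
@[simp] theorem aff_coe (A B z : ℂ) : aff A B z = ((A * z + B : ℂ) : OnePoint ℂ) := rfl
@[simp] theorem io_infty : io ∞ = ((0 : ℂ) : OnePoint ℂ) := rfl
@[simp] theorem io_zero : io ((0 : ℂ) : OnePoint ℂ) = ∞ := by
  show (if (0 : ℂ) = 0 then ∞ else (((0 : ℂ)⁻¹ : ℂ) : OnePoint ℂ)) = ∞
  rw [if_pos rfl]
theorem io_coe {z : ℂ} (hz : z ≠ 0) : io z = ((z⁻¹ : ℂ) : OnePoint ℂ) := by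
  show (if z = 0 then ∞ else ((z⁻¹ : ℂ) : OnePoint ℂ)) = _
  rw [if_neg hz]

theorem V0_aff {A : ℂ} (B : ℂ) (hA : A ≠ 0) (a b c d : OnePoint ℂ) :
    V0 (aff A B a) (aff A B b) (aff A B c) (aff A B d) = V0 a b c d := by
  apply V0_transform (aff A B) ∞ (fun w => A * w + B) (fun _ => A) rfl (cov_aff B hA)
  intro z
  induction z using OnePoint.rec with
  | infty => exact ⟨0, Filter.Eventually.of_forall fun w => by simp⟩
  | coe z =>
    refine ⟨-Real.log ‖A‖, ?_⟩
    filter_upwards [ae_ne3 z z z] with w hw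
    have h1 : A * w + B - (A * z + B) = A * (w - z) := by ring
    have h2 : ‖w - z‖ ≠ 0 := norm_ne_zero_iff.mpr (sub_ne_zero.mpr hw.1)
    have h3 : ‖A‖ ≠ 0 := norm_ne_zero_iff.mpr hA
    constructor
    · simp only [aff_coe, lam_coe, lam_infty]
      rw [h1, norm_mul, Real.log_mul h3 h2]; ring
    · simp only [aff_coe, dl_coe, dl_infty]
      rw [h1, mul_inv, ← mul_assoc, mul_inv_cancel₀ hA]; ring

theorem V0_io (a b c d : OnePoint ℂ) :
    V0 (io a) (io b) (io c) (io d) = V0 a b c d := by
  apply V0_transform io ((0 : ℂ) : OnePoint ℂ) (fun w => w⁻¹) (fun w => -(w ^ 2)⁻¹) io_zero cov_inv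
  intro z
  induction z using OnePoint.rec with
  | infty =>
    refine ⟨0, ?_⟩
    filter_upwards [ae_ne3 0 0 0] with w hw
    have hw0 := hw.1
    constructor
    · simp only [io_infty, lam_coe, lam_infty, sub_zero]
      rw [norm_inv, Real.log_inv]; ring
    · simp only [io_infty, dl_coe, dl_infty, sub_zero]
      field_simp
      ring
  | coe z =>
    by_cases hz : z = 0
    · subst hz
      refine ⟨0, Filter.Eventually.of_forall fun w => ?_⟩
      rw [io_zero]
      simp
    · refine ⟨Real.log ‖z‖, ?_⟩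
      filter_upwards [ae_ne3 0 z z] with w hw
      have hw0 := hw.1
      have hwz : w - z ≠ 0 := sub_ne_zero.mpr hw.2.1
      have h1 : w⁻¹ - z⁻¹ = -((w - z) * (w⁻¹ * z⁻¹)) := by field_simp; ring
      have n1 : ‖w - z‖ ≠ 0 := norm_ne_zero_iff.mpr hwz
      have n2 : ‖w‖⁻¹ ≠ 0 := inv_ne_zero (norm_ne_zero_iff.mpr hw0)
      have n3 : ‖z‖⁻¹ ≠ 0 := inv_ne_zero (norm_ne_zero_iff.mpr hz)
      rw [io_coe hz]
      constructor
      · simp only [lam_coe, sub_zero]
        rw [h1, norm_neg, norm_mul, norm_mul, norm_inv, norm_inv,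
          Real.log_mul n1 (mul_ne_zero n2 n3), Real.log_mul n2 n3, Real.log_inv, Real.log_inv]
        ring
      · simp only [dl_coe, sub_zero]
        rw [h1]
        field_simp
        ring

end

end Pool.Helper53.CE
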