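import Pool.Agent.Helper53.CE.VolInv

/-!
The volume cocycle on the Riemann sphere, part 3: the regular ideal simplex.
-/

namespace Pool.Helper53.CE

open MeasureTheory Set OnePoint

noncomputable section

/-- the primitive sixth root of unity `exp (i π / 3)` -/
def om : ℂ := ⟨1 / 2, √3 / 2⟩

theorem om_re : om.re = 1 / 2 := rfl
theorem om_im : om.im = √3 / 2 := rfl

theorem om_sq : om ^ 2 = om - 1 := by
  have h3 : √3 * √3 = 3 := Real.mul_self_sqrt (by norm_num)
  apply Complex.ext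
  · simp only [pow_two, Complex.mul_re, om_re, om_im, Complex.sub_re, Complex.one_re]
    nlinarith
  · simp only [pow_two, Complex.mul_im, om_re, om_im, Complex.sub_im, Complex.one_im]
    ring

theorem norm_om : ‖om‖ = 1 := by
  have h3 : √3 * √3 = 3 := Real.mul_self_sqrt (by norm_num)
  have : ‖om‖ ^ 2 = 1 := by
    rw [← Complex.normSq_eq_norm_sq, Complex.normSq_apply, om_re, om_im]
    nlinarith
  have h0 := norm_nonneg om
  nlinarith [sq_nonneg (‖om‖ - 1), sq_nonneg (‖om‖ + 1)]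

theorem om_ne_zero : om ≠ 0 := by
  intro h
  have := norm_om
  rw [h, norm_zero] at this
  exact zero_ne_one this

theorem conj_om : (starRingEnd ℂ) om = om⁻¹ := by
  have h : om * (starRingEnd ℂ) om = 1 := by
    rw [Complex.mul_conj, Complex.normSq_eq_norm_sq, norm_om]; simp
  exact eq_inv_of_mul_eq_one_right h

/-- isometries do not change the integral of a term -/
theorem tm_isom {A : ℂ} (B : ℂ) (hA : ‖A‖ = 1) (a b c : ℂ) :
    ∫ w, tm ((A * a + B : ℂ) : OnePoint ℂ) ((A * b + B : ℂ) : OnePoint ℂ)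
      ((A * c + B : ℂ) : OnePoint ℂ) w = ∫ w, tm a b c w := by
  have hA0 : A ≠ 0 := by
    intro h; rw [h, norm_zero] at hA; exact zero_ne_one hA
  rw [cov_aff B hA0]
  apply integral_congr_ae
  refine Filter.Eventually.of_forall fun w => ?_
  have h1 : ∀ z : ℂ, A * w + B - (A * z + B) = A * (w - z) := fun z => by ring
  simp only [tm, DD, lam_coe, dl_coe]
  rw [h1, h1, h1, norm_mul, hA, one_mul, mul_inv, mul_inv, wd_mul, norm_inv, hA]
  ring

theorem W_om : W ((0 : ℂ) : OnePoint ℂ) ((1 : ℂ) : OnePoint ℂ) (om : OnePoint ℂ) =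
    3 * ∫ w, tm ((0 : ℂ) : OnePoint ℂ) ((1 : ℂ) : OnePoint ℂ) (om : OnePoint ℂ) w := by
  have hA : ‖om ^ 2‖ = 1 := by rw [norm_pow, norm_om, one_pow]
  have e0 : om ^ 2 * 0 + 1 = 1 := by ring
  have e1 : om ^ 2 * 1 + 1 = om := by rw [om_sq]; ring
  have e2 : om ^ 2 * om + 1 = 0 := by
    have := om_sq
    linear_combination (om + 1) * this
  have h1 := tm_isom 1 hA 0 1 om
  have h2 := tm_isom 1 hA 1 om 0
  rw [e0, e1, e2] at h1 h2
  rw [W_eq, h2, h1]
  ring

/-- the complex density -/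
def Ps (w : ℂ) : ℂ := (w - 1)⁻¹ * (starRingEnd ℂ) ((w - om)⁻¹)

theorem tm_om (w : ℂ) : tm ((0 : ℂ) : OnePoint ℂ) ((1 : ℂ) : OnePoint ℂ) (om : OnePoint ℂ) w =
    Real.log ‖w‖ * (Ps w).im := by
  simp [tm, DD, wd, Ps]

theorem integrable_om : Integrable (fun w : ℂ => Real.log ‖w‖ * (Ps w).im) := by
  have := integrable_tm ((0 : ℂ) : OnePoint ℂ) ((1 : ℂ) : OnePoint ℂ) (om : OnePoint ℂ)
  refine this.congr (Filter.Eventually.of_forall fun w => tm_om w)

theorem Ps_circle {w : ℂ} {r : ℝ} (hr : 0 < r) (hr1 : r ≠ 1) (hw : ‖w‖ = r) :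
    Ps w = w * ((om / (r ^ 2 * om - 1)) * ((w - 1)⁻¹ - (w - r ^ 2 * om)⁻¹)) := by
  have hw0 : w ≠ 0 := by intro h; rw [h, norm_zero] at hw; linarith
  have hconj : (starRingEnd ℂ) w = r ^ 2 / w := by
    rw [eq_div_iff hw0, mul_comm, Complex.mul_conj, Complex.normSq_eq_norm_sq, hw]
    push_cast; ring
  have hom := om_ne_zero
  have n1 : ‖(r : ℂ) ^ 2 * om‖ = r ^ 2 := by
    rw [norm_mul, norm_om, norm_pow, Complex.norm_real, Real.norm_eq_abs, sq_abs, mul_one]
  have r2 : r ^ 2 ≠ 1 := by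
    intro h
    have : (r - 1) * (r + 1) = 0 := by linarith
    rcases mul_eq_zero.mp this with h | h
    · exact hr1 (by linarith)
    · linarith
  have r3 : r ^ 2 ≠ r := by
    intro h
    have : r * (r - 1) = 0 := by linarith
    rcases mul_eq_zero.mp this with h | h
    · linarith
    · exact hr1 (by linarith)
  have h1 : w - 1 ≠ 0 := by
    intro h
    have : w = 1 := sub_eq_zero.mp h
    rw [this, norm_one] at hw
    exact hr1 hw.symm
  have h2 : w - r ^ 2 * om ≠ 0 := by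
    intro h
    have : w = r ^ 2 * om := sub_eq_zero.mp h
    rw [this, n1] at hw
    exact r3 hw
  have h3 : (r : ℂ) ^ 2 * om - 1 ≠ 0 := by
    intro h
    have : (r : ℂ) ^ 2 * om = 1 := sub_eq_zero.mp h
    rw [this, norm_one] at n1
    exact r2 n1.symm
  have h4 : (starRingEnd ℂ) ((w - om)⁻¹) = - (w * om) * (w - r ^ 2 * om)⁻¹ := by
    rw [map_inv₀, map_sub, hconj, conj_om]
    have : (r : ℂ) ^ 2 / w - om⁻¹ = -((w - r ^ 2 * om) / (w * om)) := by
      field_simp
      ring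
    rw [this, inv_neg, inv_div]
    field_simp
  rw [Ps, h4]
  obtain ⟨p, hp⟩ : ∃ p : ℂ, p = (r : ℂ) ^ 2 * om := ⟨_, rfl⟩
  rw [← hp] at h2 h3 ⊢
  have k : (w - 1)⁻¹ - (w - p)⁻¹ = (1 - p) * ((w - 1)⁻¹ * (w - p)⁻¹) := by
    field_simp
    ring
  rw [k]
  have k2 : om / (p - 1) * ((1 - p) * ((w - 1)⁻¹ * (w - p)⁻¹)) =
      - (om * ((w - 1)⁻¹ * (w - p)⁻¹)) := by
    have : om / (p - 1) * (1 - p) = -om := by
      field_simp
      ring
    rw [← mul_assoc, this]; ring
  rw [k2]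
  ring

/-- `∮ 1/(w - p)` outside -/
theorem circle_out {p : ℂ} {r : ℝ} (hr : 0 < r) (hp : r < ‖p‖) :
    (∮ w in C(0, r), (w - p)⁻¹) = 0 := by
  have hne : ∀ w ∈ Metric.closedBall (0 : ℂ) r, w - p ≠ 0 := by
    intro w hw h
    rw [mem_closedBall_zero_iff] at hw
    rw [sub_eq_zero.mp h] at hw
    linarith
  apply Complex.circleIntegral_eq_zero_of_differentiable_on_off_countable hr.le
    (s := ∅) Set.countable_empty
  · apply ContinuousOn.inv₀ (by fun_prop) hne
  · intro w hw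
    exact (differentiableAt_id.sub_const p).inv (hne w (Metric.ball_subset_closedBall hw.1))

theorem circle_in {p : ℂ} {r : ℝ} (hp : ‖p‖ < r) :
    (∮ w in C(0, r), (w - p)⁻¹) = 2 * Real.pi * Complex.I :=
  circleIntegral.integral_sub_inv_of_mem_ball (by simpa using hp)

theorem circ_integrable {p : ℂ} {r : ℝ} (hr : 0 < r) (hp : ‖p‖ ≠ r) :
    CircleIntegrable (fun w => (w - p)⁻¹) 0 r := by
  rw [circleIntegrable_sub_inv_iff]
  right
  rw [mem_sphere_zero_iff_norm, abs_of_pos hr]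
  exact hp

/-- the angular integral -/
theorem Ps_angle {r : ℝ} (hr : 0 < r) (hr1 : r ≠ 1) :
    ∫ θ in (0 : ℝ)..2 * Real.pi, Ps (circleMap 0 r θ) =
      (om / (r ^ 2 * om - 1)) * Complex.I⁻¹ *
        ((∮ w in C(0, r), (w - 1)⁻¹) - (∮ w in C(0, r), (w - r ^ 2 * om)⁻¹)) := by
  have n1 : ‖(r : ℂ) ^ 2 * om‖ = r ^ 2 := by
    rw [norm_mul, norm_om, norm_pow, Complex.norm_real, Real.norm_eq_abs, sq_abs, mul_one]
  have r3 : r ^ 2 ≠ r := by
    intro h
    have : r * (r - 1) = 0 := by linarith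
    rcases mul_eq_zero.mp this with h | h
    · linarith
    · exact hr1 (by linarith)
  rw [← circleIntegral.integral_sub (circ_integrable hr (by rw [norm_one]; exact hr1.symm))
    (circ_integrable hr (by rw [n1]; exact r3))]
  rw [circleIntegral, ← intervalIntegral.integral_const_mul]
  apply intervalIntegral.integral_congr
  intro θ _
  have hw : ‖circleMap 0 r θ‖ = r := by
    rw [norm_circleMap_zero, abs_of_pos hr]
  show Ps (circleMap 0 r θ) = om / (r ^ 2 * om - 1) * Complex.I⁻¹ *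
    (deriv (circleMap 0 r) θ • ((circleMap 0 r θ - 1)⁻¹ - (circleMap 0 r θ - r ^ 2 * om)⁻¹))
  rw [Ps_circle hr hr1 hw, deriv_circleMap, smul_eq_mul]
  have hI : Complex.I⁻¹ * Complex.I = 1 := inv_mul_cancel₀ Complex.I_ne_zero
  linear_combination (-(om / (r ^ 2 * om - 1)) * circleMap 0 r θ *
    ((circleMap 0 r θ - 1)⁻¹ - (circleMap 0 r θ - r ^ 2 * om)⁻¹)) * hI

theorem im_aux (r : ℝ) : (om / ((r : ℂ) ^ 2 * om - 1)).im =
    -(√3 / 2) / ‖(r : ℂ) ^ 2 * om - 1‖ ^ 2 := by
  have h3 : √3 * √3 = 3 := Real.mul_self_sqrt (by norm_num)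
  rw [Complex.div_im, ← Complex.normSq_eq_norm_sq]
  have e : (((r : ℂ) ^ 2 * om - 1)).re = r ^ 2 / 2 - 1 := by
    rw [← Complex.ofReal_pow, Complex.sub_re, Complex.re_ofReal_mul, om_re, Complex.one_re]; ring
  have e' : (((r : ℂ) ^ 2 * om - 1)).im = r ^ 2 * (√3 / 2) := by
    rw [← Complex.ofReal_pow, Complex.sub_im, Complex.im_ofReal_mul, om_im, Complex.one_im]; ring
  rw [e, e', om_re, om_im]
  ring

theorem den_pos {r : ℝ} (hr : 0 < r) (hr1 : r ≠ 1) : 0 < ‖(r : ℂ) ^ 2 * om - 1‖ ^ 2 := by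
  have n1 : ‖(r : ℂ) ^ 2 * om‖ = r ^ 2 := by
    rw [norm_mul, norm_om, norm_pow, Complex.norm_real, Real.norm_eq_abs, sq_abs, mul_one]
  have r2 : r ^ 2 ≠ 1 := by
    intro h
    have : (r - 1) * (r + 1) = 0 := by linarith
    rcases mul_eq_zero.mp this with h | h
    · exact hr1 (by linarith)
    · linarith
  have h3 : (r : ℂ) ^ 2 * om - 1 ≠ 0 := by
    intro h
    have : (r : ℂ) ^ 2 * om = 1 := sub_eq_zero.mp h
    rw [this, norm_one] at n1
    exact r2 n1.symm
  positivity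

theorem Ps_angle_lt {r : ℝ} (hr : 0 < r) (hr1 : r < 1) :
    (∫ θ in (0 : ℝ)..2 * Real.pi, Ps (circleMap 0 r θ)).im =
      2 * Real.pi * ((√3 / 2) / ‖(r : ℂ) ^ 2 * om - 1‖ ^ 2) := by
  have n1 : ‖(r : ℂ) ^ 2 * om‖ = r ^ 2 := by
    rw [norm_mul, norm_om, norm_pow, Complex.norm_real, Real.norm_eq_abs, sq_abs, mul_one]
  rw [Ps_angle hr hr1.ne, circle_out hr (by rw [norm_one]; exact hr1),
    circle_in (by rw [n1]; nlinarith)]
  have hI : Complex.I⁻¹ * Complex.I = 1 := inv_mul_cancel₀ Complex.I_ne_zero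
  have e : om / ((r : ℂ) ^ 2 * om - 1) * Complex.I⁻¹ * (0 - 2 * Real.pi * Complex.I) =
      ((-(2 * Real.pi) : ℝ) : ℂ) * (om / ((r : ℂ) ^ 2 * om - 1)) := by
    push_cast
    linear_combination (-(2 * Real.pi) * (om / ((r : ℂ) ^ 2 * om - 1))) * hI
  rw [e, Complex.im_ofReal_mul, im_aux]
  ring

theorem Ps_angle_gt {r : ℝ} (hr1 : 1 < r) :
    (∫ θ in (0 : ℝ)..2 * Real.pi, Ps (circleMap 0 r θ)).im =
      -(2 * Real.pi * ((√3 / 2) / ‖(r : ℂ) ^ 2 * om - 1‖ ^ 2)) := by
  have hr : 0 < r := by linarith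
  have n1 : ‖(r : ℂ) ^ 2 * om‖ = r ^ 2 := by
    rw [norm_mul, norm_om, norm_pow, Complex.norm_real, Real.norm_eq_abs, sq_abs, mul_one]
  rw [Ps_angle hr hr1.ne', circle_out (p := (r : ℂ) ^ 2 * om) hr (by rw [n1]; nlinarith),
    circle_in (by rw [norm_one]; exact hr1)]
  have hI : Complex.I⁻¹ * Complex.I = 1 := inv_mul_cancel₀ Complex.I_ne_zero
  have e : om / ((r : ℂ) ^ 2 * om - 1) * Complex.I⁻¹ * (2 * Real.pi * Complex.I - 0) =
      (((2 * Real.pi) : ℝ) : ℂ) * (om / ((r : ℂ) ^ 2 * om - 1)) := by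
    push_cast
    linear_combination ((2 * Real.pi) * (om / ((r : ℂ) ^ 2 * om - 1))) * hI
  rw [e, Complex.im_ofReal_mul, im_aux]
  ring

theorem continuous_Ps_circle {r : ℝ} (hr : 0 < r) (hr1 : r ≠ 1) :
    Continuous (fun θ : ℝ => Ps (circleMap 0 r θ)) := by
  unfold Ps
  have hn : ∀ θ : ℝ, ‖circleMap 0 r θ‖ = r := fun θ => by
    rw [norm_circleMap_zero, abs_of_pos hr]
  have hc := continuous_circleMap 0 r
  apply Continuous.mul
  · apply Continuous.inv₀ (by fun_prop)
    intro θ h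
    have := hn θ
    rw [sub_eq_zero.mp h, norm_one] at this
    exact hr1 this.symm
  · apply Complex.continuous_conj.comp
    apply Continuous.inv₀ (by fun_prop)
    intro θ h
    have := hn θ
    rw [sub_eq_zero.mp h, norm_om] at this
    exact hr1 this.symm

/-- the angular integral over `(-π, π)` -/
theorem angle_eq {r : ℝ} (hr : 0 < r) (hr1 : r ≠ 1) :
    ∫ θ in Ioo (-Real.pi) Real.pi, (Ps (Complex.polarCoord.symm (r, θ))).im =
      (∫ θ in (0 : ℝ)..2 * Real.pi, Ps (circleMap 0 r θ)).im := by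
  have e1 : ∀ θ : ℝ, Complex.polarCoord.symm (r, θ) = circleMap 0 r θ := by
    intro θ
    rw [Complex.polarCoord_symm_apply, circleMap_zero]
    simp only [Complex.ofReal_cos, Complex.ofReal_sin]
    rw [Complex.exp_mul_I]
  simp only [e1]
  have hint : IntervalIntegrable (fun θ : ℝ => Ps (circleMap 0 r θ)) volume 0 (2 * Real.pi) :=
    (continuous_Ps_circle hr hr1).intervalIntegrable _ _
  have h1 := intervalIntegral.intervalIntegral_im hint
  rw [RCLike.im_to_complex] at h1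
  have hper : Function.Periodic (fun θ : ℝ => (Ps (circleMap 0 r θ)).im) (2 * Real.pi) := by
    intro θ
    show (Ps (circleMap 0 r (θ + 2 * Real.pi))).im = _
    rw [periodic_circleMap 0 r θ]
  have h2 := hper.intervalIntegral_add_eq (-Real.pi) 0
  rw [show -Real.pi + 2 * Real.pi = Real.pi by ring, zero_add,
    intervalIntegral.integral_of_le (by linarith [Real.pi_pos]), integral_Ioc_eq_integral_Ioo] at h2
  rw [h2, ← h1]
  rfl

theorem polar_integrable :
    IntegrableOn (fun p : ℝ × ℝ => p.1 * (Real.log ‖Complex.polarCoord.symm p‖ *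
      (Ps (Complex.polarCoord.symm p)).im)) (Ioi 0 ×ˢ Ioo (-Real.pi) Real.pi) := by
  have hF := integrable_om
  have hmF : Measurable (fun w : ℂ => Real.log ‖w‖ * (Ps w).im) := by
    apply (Real.measurable_log.comp measurable_norm).mul
    apply Complex.measurable_im.comp
    unfold Ps
    apply Measurable.mul
    · exact (measurable_id.sub_const 1).inv
    · exact Complex.continuous_conj.measurable.comp (measurable_id.sub_const om).inv
  have hpol : Continuous (fun p : ℝ × ℝ => Complex.polarCoord.symm p) := by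
    have : (fun p : ℝ × ℝ => Complex.polarCoord.symm p) =
        fun p : ℝ × ℝ => (p.1 : ℂ) * (Real.cos p.2 + Real.sin p.2 * Complex.I) := by
      funext p; exact Complex.polarCoord_symm_apply p
    rw [this]
    fun_prop
  refine ⟨(measurable_fst.mul (hmF.comp hpol.measurable)).aestronglyMeasurable, ?_⟩
  rw [hasFiniteIntegral_iff_enorm]
  have h1 := Complex.lintegral_comp_polarCoord_symm (fun w : ℂ => ‖Real.log ‖w‖ * (Ps w).im‖ₑ)
  have h2 : ∫⁻ w : ℂ, ‖Real.log ‖w‖ * (Ps w).im‖ₑ < ⊤ := hF.2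
  rw [← h1] at h2
  refine lt_of_eq_of_lt ?_ h2
  apply setLIntegral_congr_fun (measurableSet_Ioi.prod measurableSet_Ioo)
  intro p hp
  have hp1 : 0 < p.1 := hp.1
  show ‖p.1 * (Real.log ‖Complex.polarCoord.symm p‖ *
      (Ps (Complex.polarCoord.symm p)).im)‖ₑ = _
  rw [enorm_mul, Real.enorm_eq_ofReal hp1.le]
  rfl

/-- the integral is negative -/
theorem integral_om_neg : ∫ w : ℂ, Real.log ‖w‖ * (Ps w).im < 0 := by
  have h1 := Complex.integral_comp_polarCoord_symm (fun w : ℂ => Real.log ‖w‖ * (Ps w).im)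
  rw [← h1]
  have hpi := polar_integrable
  have h2 := setIntegral_prod (μ := volume) (ν := volume) (s := Ioi (0 : ℝ))
    (t := Ioo (-Real.pi) Real.pi) (fun p : ℝ × ℝ => p.1 * (Real.log ‖Complex.polarCoord.symm p‖ *
      (Ps (Complex.polarCoord.symm p)).im)) hpi
  have h3 : ∫ p in polarCoord.target, p.1 • (Real.log ‖Complex.polarCoord.symm p‖ *
      (Ps (Complex.polarCoord.symm p)).im) = ∫ r in Ioi (0 : ℝ), ∫ θ in Ioo (-Real.pi) Real.pi,
        r * (Real.log ‖Complex.polarCoord.symm (r, θ)‖ *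
      (Ps (Complex.polarCoord.symm (r, θ))).im) := h2
  rw [h3]
  set H : ℝ → ℝ := fun r => ∫ θ in Ioo (-Real.pi) Real.pi,
        r * (Real.log ‖Complex.polarCoord.symm (r, θ)‖ *
      (Ps (Complex.polarCoord.symm (r, θ))).im) with hH
  have hHint : Integrable H (volume.restrict (Ioi (0 : ℝ))) := by
    have : Integrable (fun p : ℝ × ℝ => p.1 * (Real.log ‖Complex.polarCoord.symm p‖ *
      (Ps (Complex.polarCoord.symm p)).im))
      ((volume.restrict (Ioi (0 : ℝ))).prod (volume.restrict (Ioo (-Real.pi) Real.pi))) := by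
      rw [Measure.prod_restrict]
      exact hpi
    exact this.integral_prod_left
  have hHval : ∀ r : ℝ, 0 < r → r ≠ 1 → H r < 0 := by
    intro r hr hr1
    have e1 : H r = r * Real.log r *
        ∫ θ in Ioo (-Real.pi) Real.pi, (Ps (Complex.polarCoord.symm (r, θ))).im := by
      rw [hH, ← integral_const_mul]
      apply integral_congr_ae
      refine Filter.Eventually.of_forall fun θ => ?_
      show r * (Real.log ‖Complex.polarCoord.symm (r, θ)‖ * _) = r * Real.log r * _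
      rw [Complex.norm_polarCoord_symm, abs_of_pos hr]
      ring
    rw [e1, angle_eq hr hr1]
    have hd := den_pos hr hr1
    have h3 : 0 < √3 := Real.sqrt_pos.mpr (by norm_num)
    have hpi := Real.pi_pos
    rcases lt_or_gt_of_ne hr1 with h | h
    · rw [Ps_angle_lt hr h]
      have hl : Real.log r < 0 := Real.log_neg hr h
      have : 0 < 2 * Real.pi * ((√3 / 2) / ‖(r : ℂ) ^ 2 * om - 1‖ ^ 2) := by positivity
      nlinarith [mul_pos hr (neg_pos.mpr hl), mul_pos (mul_pos hr (neg_pos.mpr hl)) this]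
    · rw [Ps_angle_gt h]
      have hl : 0 < Real.log r := Real.log_pos h
      have : 0 < 2 * Real.pi * ((√3 / 2) / ‖(r : ℂ) ^ 2 * om - 1‖ ^ 2) := by positivity
      nlinarith [mul_pos hr hl, mul_pos (mul_pos hr hl) this]
  have hneg : 0 < ∫ r in Ioi (0 : ℝ), -H r := by
    refine (integral_pos_iff_support_of_nonneg_ae (f := fun r => -H r) ?_ hHint.neg).mpr ?_
    swap
    · have hsub : Ioo (0 : ℝ) 1 ⊆ Function.support (fun r => -H r) := by
        intro r hr
        rw [Function.mem_support]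
        have := hHval r hr.1 hr.2.ne
        linarith
      refine lt_of_lt_of_le ?_ (measure_mono hsub)
      rw [Measure.restrict_apply measurableSet_Ioo, inter_eq_left.mpr Ioo_subset_Ioi_self,
        Real.volume_Ioo]
      simp
    · have hne : ∀ᵐ r : ℝ ∂(volume.restrict (Ioi (0 : ℝ))), r ≠ 1 := by
        apply ae_restrict_of_ae
        have : ({1} : Set ℝ)ᶜ ∈ ae (volume : Measure ℝ) := by
          rw [compl_mem_ae_iff]; simp
        filter_upwards [this] with r hr
        simpa using hr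
      filter_upwards [hne, ae_restrict_mem measurableSet_Ioi] with r hr1 hr
      have := hHval r hr hr1
      show 0 ≤ -H r
      linarith
  rw [integral_neg] at hneg
  linarith

theorem W_om_neg : W ((0 : ℂ) : OnePoint ℂ) ((1 : ℂ) : OnePoint ℂ) (om : OnePoint ℂ) < 0 := by
  rw [W_om]
  have h := integral_om_neg
  have : ∫ w, tm ((0 : ℂ) : OnePoint ℂ) ((1 : ℂ) : OnePoint ℂ) (om : OnePoint ℂ) w =
      ∫ w : ℂ, Real.log ‖w‖ * (Ps w).im :=
    integral_congr_ae (Filter.Eventually.of_forall fun w => tm_om w)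
  rw [this]
  linarith

end

end Pool.Helper53.CE
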